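import Pool.Agent.H.MP_ab035a_co.C

namespace Pool.Agent.Results.MP_c15e47_co.Additive

theorem result : ∃ C : ℕ, ∀ (n : ℕ) (G : SimpleGraph (Fin n)) [DecidableRel G.Adj],
    Even G.edgeFinset.card → ∀ c : Sym2 (Fin (n + C)) → ZMod 2 × ZMod 2,
      ∃ φ : Fin n ↪ Fin (n + C), ∑ e ∈ G.edgeFinset, c (Sym2.map φ e) = 0 := by
  obtain ⟨C, h⟩ := H.MP_ab035a_co.main (ZMod 2 × ZMod 2)
  refine ⟨C, fun n G _ ⟨m, hm⟩ => h n G fun a => ?_⟩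
  have : ∀ a : ZMod 2 × ZMod 2, a + a = 0 := by decide
  rw [hm, add_nsmul, this]

end Pool.Agent.Results.MP_c15e47_co.Additive
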